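import Pool.Agent.N208.NC.MotN
import Pool.Agent.N348.NCE
import Pool.Agent.N152.NCD

set_option autoImplicit false

/-! The theorem on full subalgebras which are compact modulo an ideal. -/

namespace Pool.Agent.N208.NC

open Pool.Agent.N208.BT

theorem nce : S_NCE := Pool.Agent.N348.NCE.main Pool.Agent.N152.NCD.main

end Pool.Agent.N208.NC
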