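import Pool.Agent.N208.BT.Fin
import Pool.Agent.N208.BT.Stm6

set_option autoImplicit false
set_option linter.unusedSectionVars false

/-!
# Period groups which are compact on a real Hodge substructure
-/

open Module Function TensorProduct Matrix

noncomputable section

namespace Pool.Agent.N208.NC

open Pool.Agent.Y102 Pool.Agent.W516.DR Pool.Agent.H204R3.GP Pool.Agent.W516.KC
  Pool.Agent.H204R3.SP Pool.Agent.TH119.MX Pool.Agent.R917 Pool.Agent.N208.AM Pool.Agent.N208.AD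
  Pool.Agent.N208.BT

variable {g : ℕ} {A : AbVar g} {s n : ℕ} {r : Fin s → ℕ} {B : Fin n → Ten A r} {w : Fin s → ℤ}
  {P : Matrix (Fin n) (Fin n) ℂ} {H : Set (Matrix (Fin n) (Fin n) ℂ)}
  {Wt : Matrix (Fin n) (Fin n) ℚ} {N : Matrix (Fin n) (Fin n) ℝ}

/-! ### Orthonormal bases -/

theorem exists_onbU (U : Submodule ℝ (Fin n → ℝ)) (b : (Fin n → ℝ) →ₗ[ℝ] (Fin n → ℝ) →ₗ[ℝ] ℝ)
    (hsym : ∀ u ∈ U, ∀ v ∈ U, b u v = b v u) (hpos : ∀ u ∈ U, u ≠ 0 → 0 < b u u) :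
    ∃ (m : ℕ) (e : Fin m → (Fin n → ℝ)), (∀ i, e i ∈ U) ∧
      (∀ i j, b (e i) (e j) = if i = j then 1 else 0) ∧ ∀ u ∈ U, u = ∑ i, b u (e i) • e i := by
  let bU : LinearMap.BilinForm ℝ U := b.domRestrict₁₂ U U
  have hb : ∀ u v : U, bU u v = b u v := fun u v => rfl
  have hs : LinearMap.IsSymm bU := ⟨fun u v => by
    rw [RingHom.id_apply]
    exact hsym u u.2 v v.2⟩
  obtain ⟨v₀, hv₀⟩ := LinearMap.BilinForm.exists_orthogonal_basis hs
  have hp : ∀ i, 0 < bU (v₀ i) (v₀ i) := fun i =>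
    hpos _ (v₀ i).2 fun h => v₀.ne_zero i (Subtype.ext h)
  let sc : Fin (finrank ℝ U) → ℝˣ := fun i =>
    Units.mk0 (Real.sqrt (bU (v₀ i) (v₀ i)))⁻¹ (inv_ne_zero (Real.sqrt_pos.2 (hp i)).ne')
  obtain ⟨v, hv⟩ : ∃ v : Basis (Fin (finrank ℝ U)) ℝ U,
      ∀ i, v i = (Real.sqrt (bU (v₀ i) (v₀ i)))⁻¹ • v₀ i :=
    ⟨v₀.unitsSMul sc, fun i => Basis.unitsSMul_apply i⟩
  have hij : ∀ i j, bU (v i) (v j) = if i = j then 1 else 0 := by
    intro i j
    rw [hv, hv, map_smul, map_smul, LinearMap.smul_apply]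
    by_cases hij : i = j
    · subst hij
      rw [if_pos rfl, smul_eq_mul, smul_eq_mul]
      have h1 := Real.mul_self_sqrt (hp i).le
      have h2 := (Real.sqrt_pos.2 (hp i)).ne'
      field_simp
      rw [Real.sq_sqrt (hp i).le]
    · rw [if_neg hij]
      have h1 : bU (v₀ i) (v₀ j) = 0 := hv₀ hij
      rw [h1, smul_zero, smul_zero]
  refine ⟨_, fun i => (v i : Fin n → ℝ), fun i => (v i).2, hij, fun u hu => ?_⟩
  have h1 := v.sum_repr ⟨u, hu⟩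
  have h2 : ∀ i, v.repr ⟨u, hu⟩ i = b u (v i) := by
    intro i
    have h3 : b u (v i) = bU ⟨u, hu⟩ (v i) := rfl
    rw [h3]
    conv_rhs => rw [← h1]
    rw [map_sum, LinearMap.sum_apply, Finset.sum_eq_single i]
    · rw [map_smul, LinearMap.smul_apply, smul_eq_mul, hij, if_pos rfl, mul_one]
    · intro j _ hj
      rw [map_smul, LinearMap.smul_apply, hij, if_neg hj, smul_zero]
    · intro h
      exact absurd (Finset.mem_univ _) h
  have h4 := congrArg (fun x : U => (x : Fin n → ℝ)) h1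
  simp only [AddSubmonoidClass.coe_finsetSum, SetLike.val_smul] at h4
  conv_lhs => rw [← h4]
  exact Finset.sum_congr rfl fun i _ => by rw [h2]

/-! ### The matrices of the real Lie algebra -/

theorem exists_RelR (h : Mot w B P) {Y : Module.End ℝ (Fin g → ℂ)}
    (hY : Y ∈ spE A (A.NA : Set (Module.End ℚ A.H1))) : ∃ M, RelR B Y M := by
  induction hY using Submodule.span_induction with
  | mem Y hY =>
    obtain ⟨X, hX, rfl⟩ := hY
    obtain ⟨M, hM⟩ := h.st X hX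
    exact ⟨_, hM.real⟩
  | zero => exact ⟨0, RelR.zero⟩
  | add a b _ _ ha hb =>
    obtain ⟨M, h1⟩ := ha
    obtain ⟨M', h1'⟩ := hb
    exact ⟨M + M', h1.add h1'⟩
  | smul c a _ ha =>
    obtain ⟨M, h1⟩ := ha
    exact ⟨c • M, h1.smul c⟩

theorem exists_F (h : Mot w B P) : ∃ F : Module.End ℝ (Fin g → ℂ) →ₗ[ℝ] Matrix (Fin n) (Fin n) ℝ,
    ∀ Y ∈ spE A (A.NA : Set (Module.End ℚ A.H1)), RelR B Y (F Y) := by
  choose f hf using fun Y : spE A (A.NA : Set (Module.End ℚ A.H1)) => exists_RelR (B := B) h Y.2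
  let F₀ : spE A (A.NA : Set (Module.End ℚ A.H1)) →ₗ[ℝ] Matrix (Fin n) (Fin n) ℝ :=
    { toFun := f
      map_add' := fun Y Z => RelR.uniq h.li (hf (Y + Z)) ((hf Y).add (hf Z))
      map_smul' := fun c Y => RelR.uniq h.li (hf (c • Y)) ((hf Y).smul c) }
  obtain ⟨F, hF⟩ := LinearMap.exists_extend F₀
  refine ⟨F, fun Y hY => ?_⟩
  have h1 : F Y = f ⟨Y, hY⟩ := LinearMap.congr_fun hF ⟨Y, hY⟩
  rw [h1]
  exact hf ⟨Y, hY⟩

/-- The hypothesis: a real subspace `U` which is stable under the Lie algebra, with a positive definite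
form which is invariant up to scalars under the elements of the derived algebra whose matrices are in
the Lie algebra of the group. -/
structure CU (B : Fin n → Ten A r) (H : Set (Matrix (Fin n) (Fin n) ℂ))
    (U : Submodule ℝ (Fin n → ℝ)) (b : (Fin n → ℝ) →ₗ[ℝ] (Fin n → ℝ) →ₗ[ℝ] ℝ) : Prop where
  st : ∀ X ∈ A.NA, ∀ M, Rel B X M → ∀ u ∈ U, rq M *ᵥ u ∈ U
  sym : ∀ u ∈ U, ∀ v ∈ U, b u v = b v u
  pos : ∀ u ∈ U, u ≠ 0 → 0 < b u u
  inv : ∀ X ∈ der A.NA, ∀ M, Rel B X M → M ∈ LQ H → ∃ κ : ℝ, ∀ u ∈ U, ∀ v ∈ U,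
    b (rq M *ᵥ u) v + b u (rq M *ᵥ v) = κ * b u v

/-- The computation with an orthonormal basis. -/
theorem onb_inv {U : Submodule ℝ (Fin n → ℝ)} {b : (Fin n → ℝ) →ₗ[ℝ] (Fin n → ℝ) →ₗ[ℝ] ℝ}
    {m : ℕ} {e : Fin m → (Fin n → ℝ)} (he : ∀ i, e i ∈ U)
    (hij : ∀ i j, b (e i) (e j) = if i = j then 1 else 0)
    (hu : ∀ u ∈ U, u = ∑ i, b u (e i) • e i) (hsym : ∀ u ∈ U, ∀ v ∈ U, b u v = b v u)
    {K S T : Matrix (Fin n) (Fin n) ℝ} {κ : ℝ}
    (hK : ∀ u ∈ U, ∀ v ∈ U, b (K *ᵥ u) v + b u (K *ᵥ v) = κ * b u v)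
    (hKU : ∀ u ∈ U, K *ᵥ u ∈ U) (hSU : ∀ u ∈ U, S *ᵥ u ∈ U) (hTU : ∀ u ∈ U, T *ᵥ u ∈ U) :
    ∑ i, (b ((S * K - K * S) *ᵥ e i) (T *ᵥ e i) + b (S *ᵥ e i) ((T * K - K * T) *ᵥ e i)) = 0 := by
  have hk : ∀ i j, b (K *ᵥ e i) (e j) + b (K *ᵥ e j) (e i) = if i = j then κ else 0 := by
    intro i j
    have h1 := hK (e i) (he i) (e j) (he j)
    rw [hsym (e i) (he i) _ (hKU _ (he j)), hij] at h1
    rw [h1]
    split_ifs
    · rw [mul_one]
    · rw [mul_zero]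
  have hexp : ∀ (Y : Matrix (Fin n) (Fin n) ℝ) (i : Fin m),
      Y *ᵥ (K *ᵥ e i) = ∑ j, b (K *ᵥ e i) (e j) • (Y *ᵥ e j) := by
    intro Y i
    conv_lhs => rw [hu _ (hKU _ (he i))]
    rw [Matrix.mulVec_sum]
    exact Finset.sum_congr rfl fun j _ => Matrix.mulVec_smul _ _ _
  have h1 : ∀ i, b ((S * K - K * S) *ᵥ e i) (T *ᵥ e i) + b (S *ᵥ e i) ((T * K - K * T) *ᵥ e i) =
      (b (S *ᵥ (K *ᵥ e i)) (T *ᵥ e i) + b (S *ᵥ e i) (T *ᵥ (K *ᵥ e i))) -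
        κ * b (S *ᵥ e i) (T *ᵥ e i) := by
    intro i
    rw [← hK _ (hSU _ (he i)) _ (hTU _ (he i))]
    rw [Matrix.sub_mulVec, Matrix.sub_mulVec, ← Matrix.mulVec_mulVec, ← Matrix.mulVec_mulVec,
      ← Matrix.mulVec_mulVec, ← Matrix.mulVec_mulVec, map_sub, map_sub, LinearMap.sub_apply]
    ring
  rw [Finset.sum_congr rfl fun i _ => h1 i, Finset.sum_sub_distrib, Finset.sum_add_distrib]
  have h2 : ∑ i, b (S *ᵥ (K *ᵥ e i)) (T *ᵥ e i) =
      ∑ i, ∑ j, b (K *ᵥ e i) (e j) * b (S *ᵥ e j) (T *ᵥ e i) := by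
    refine Finset.sum_congr rfl fun i _ => ?_
    rw [hexp, map_sum, LinearMap.sum_apply]
    exact Finset.sum_congr rfl fun j _ => by rw [map_smul, LinearMap.smul_apply, smul_eq_mul]
  have h3 : ∑ i, b (S *ᵥ e i) (T *ᵥ (K *ᵥ e i)) =
      ∑ i, ∑ j, b (K *ᵥ e j) (e i) * b (S *ᵥ e j) (T *ᵥ e i) := by
    rw [Finset.sum_comm]
    refine Finset.sum_congr rfl fun i _ => ?_
    rw [hexp, map_sum]
    exact Finset.sum_congr rfl fun j _ => by rw [map_smul, smul_eq_mul]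
  have h4 : ∑ i, ∑ j, b (K *ᵥ e i) (e j) * b (S *ᵥ e j) (T *ᵥ e i) +
      ∑ i, ∑ j, b (K *ᵥ e j) (e i) * b (S *ᵥ e j) (T *ᵥ e i) =
      ∑ i, κ * b (S *ᵥ e i) (T *ᵥ e i) := by
    rw [← Finset.sum_add_distrib]
    refine Finset.sum_congr rfl fun i _ => ?_
    rw [← Finset.sum_add_distrib, Finset.sum_eq_single i]
    · rw [← add_mul, hk, if_pos rfl]
    · intro j _ hj
      rw [← add_mul, hk, if_neg (Ne.symm hj), zero_mul]
    · intro h
      exact absurd (Finset.mem_univ _) h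
  rw [h2, h3, h4, sub_self]

/-- The kernel of the action on `U`. -/
def kU (A : AbVar g) (F : Module.End ℝ (Fin g → ℂ) →ₗ[ℝ] Matrix (Fin n) (Fin n) ℝ)
    (U : Submodule ℝ (Fin n → ℝ)) : Submodule ℝ (Module.End ℝ (Fin g → ℂ)) where
  carrier := {Y | Y ∈ spE A (A.NA : Set (Module.End ℚ A.H1)) ∧ ∀ u ∈ U, F Y *ᵥ u = 0}
  zero_mem' := ⟨Submodule.zero_mem _, fun u _ => by rw [map_zero, Matrix.zero_mulVec]⟩
  add_mem' := fun {a b} ha hb => ⟨Submodule.add_mem _ ha.1 hb.1, fun u hu => by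
    rw [map_add, Matrix.add_mulVec, ha.2 u hu, hb.2 u hu, add_zero]⟩
  smul_mem' := fun c a ha => ⟨Submodule.smul_mem _ c ha.1, fun u hu => by
    rw [map_smul, Matrix.smul_mulVec, ha.2 u hu, smul_zero]⟩

section

variable {F : Module.End ℝ (Fin g → ℂ) →ₗ[ℝ] Matrix (Fin n) (Fin n) ℝ}
  {U : Submodule ℝ (Fin n → ℝ)} {b : (Fin n → ℝ) →ₗ[ℝ] (Fin n → ℝ) →ₗ[ℝ] ℝ}

theorem F_ext (h : Mot w B P) (hF : ∀ Y ∈ spE A (A.NA : Set (Module.End ℚ A.H1)), RelR B Y (F Y))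
    {X : Module.End ℚ A.H1} (hX : X ∈ A.NA) {M : Matrix (Fin n) (Fin n) ℚ} (hM : Rel B X M) :
    F (A.ext X) = rq M :=
  RelR.uniq h.li (hF _ (mem_spE (S := (A.NA : Set (Module.End ℚ A.H1))) hX)) hM.real

theorem F_U (h : Mot w B P) (hF : ∀ Y ∈ spE A (A.NA : Set (Module.End ℚ A.H1)), RelR B Y (F Y))
    (hU : ∀ X ∈ A.NA, ∀ M, Rel B X M → ∀ u ∈ U, rq M *ᵥ u ∈ U)
    {Y : Module.End ℝ (Fin g → ℂ)} (hY : Y ∈ spE A (A.NA : Set (Module.End ℚ A.H1))) :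
    ∀ u ∈ U, F Y *ᵥ u ∈ U := by
  induction hY using Submodule.span_induction with
  | mem Y hY =>
    obtain ⟨X, hX, rfl⟩ := hY
    obtain ⟨M, hM⟩ := h.st X hX
    rw [F_ext h hF hX hM]
    exact hU X hX M hM
  | zero =>
    intro u _
    rw [map_zero, Matrix.zero_mulVec]
    exact U.zero_mem
  | add a b _ _ ha hb =>
    intro u hu
    rw [map_add, Matrix.add_mulVec]
    exact U.add_mem (ha u hu) (hb u hu)
  | smul c a _ ha =>
    intro u hu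
    rw [map_smul, Matrix.smul_mulVec]
    exact U.smul_mem _ (ha u hu)

theorem F_br (h : Mot w B P) (hF : ∀ Y ∈ spE A (A.NA : Set (Module.End ℚ A.H1)), RelR B Y (F Y))
    {Y Z : Module.End ℝ (Fin g → ℂ)} (hY : Y ∈ spE A (A.NA : Set (Module.End ℚ A.H1)))
    (hZ : Z ∈ spE A (A.NA : Set (Module.End ℚ A.H1))) :
    F (Y * Z - Z * Y) = F Z * F Y - F Y * F Z :=
  RelR.uniq h.li (hF _ (spE_br (U := A.NA) (fun _ hX _ hY => A.NA_bracket hX hY) Y hY Z hZ))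
    ((hF Y hY).br (hF Z hZ))

theorem kU_id (h : Mot w B P) (hF : ∀ Y ∈ spE A (A.NA : Set (Module.End ℚ A.H1)), RelR B Y (F Y))
    (hU : ∀ X ∈ A.NA, ∀ M, Rel B X M → ∀ u ∈ U, rq M *ᵥ u ∈ U) : IdE A (kU A F U) where
  le := fun Y hY => hY.1
  br := by
    rintro Y ⟨hY, h1⟩ Z hZ
    refine ⟨spE_br (U := A.NA) (fun X hX Y hY => A.NA_bracket hX hY) Z hZ Y hY, fun u hu => ?_⟩
    rw [F_br h hF hZ hY, Matrix.sub_mulVec, ← Matrix.mulVec_mulVec, ← Matrix.mulVec_mulVec,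
      h1 u hu, h1 _ (F_U h hF hU hZ u hu), Matrix.mulVec_zero, sub_self]

/-- **Main theorem.** -/
theorem nc_main (hE : S_NCE) (h : Mot w B P) (hW : WRel w B Wt) (hH : PtM P H)
    (hN : RelR B AbVar.JJ N) (hC : CU B H U b) :
    ∀ X ∈ A.NA, ∀ M, Rel B X M → ∀ u ∈ U, (rq M * N - N * rq M) *ᵥ u = 0 := by
  obtain ⟨F, hF⟩ := exists_F h
  obtain ⟨m, e, he, hij, hu⟩ := exists_onbU U b hC.sym hC.pos
  let L : Fin m → Module.End ℝ (Fin g → ℂ) →ₗ[ℝ] (Fin n → ℝ) := fun i =>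
    { toFun := fun Y => F Y *ᵥ e i
      map_add' := fun Y Z => by rw [map_add, Matrix.add_mulVec]
      map_smul' := fun c Y => by rw [map_smul, Matrix.smul_mulVec, RingHom.id_apply] }
  let β : Module.End ℝ (Fin g → ℂ) →ₗ[ℝ] Module.End ℝ (Fin g → ℂ) →ₗ[ℝ] ℝ :=
    ∑ i, b.compl₁₂ (L i) (L i)
  have hβ : ∀ Y Z, β Y Z = ∑ i, b (F Y *ᵥ e i) (F Z *ᵥ e i) := by
    intro Y Z
    change (∑ i, b.compl₁₂ (L i) (L i)) Y Z = _
    rw [LinearMap.sum_apply, LinearMap.sum_apply]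
    rfl
  have hnn : ∀ u ∈ U, 0 ≤ b u u := by
    intro u hu
    by_cases h0 : u = 0
    · rw [h0, map_zero]
    · exact (hC.pos u hu h0).le
  have hFU := fun Y hY => F_U (Y := Y) h hF hC.st hY
  have key := hE g A (qM B Wt H) (qM_full h hW hH) (kU A F U) β (kU_id h hF hC.st) ?_ ?_ ?_ ?_
  · intro X hX M hM u hu
    have h1 := (key _ (mem_spE (S := (A.NA : Set (Module.End ℚ A.H1))) hX)).2 u hu
    have h2 : F AbVar.JJ = N := RelR.uniq h.li (hF _ JJ_mem) hN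
    rw [F_br h hF JJ_mem (mem_spE (S := (A.NA : Set (Module.End ℚ A.H1))) hX), h2,
      F_ext h hF hX hM] at h1
    exact h1
  · intro Y hY Z hZ
    rw [hβ, hβ]
    exact Finset.sum_congr rfl fun i _ =>
      hC.sym _ (hFU Y hY _ (he i)) _ (hFU Z hZ _ (he i))
  · intro Y hY
    rw [hβ]
    exact Finset.sum_nonneg fun i _ => hnn _ (hFU Y hY _ (he i))
  · intro Y hY h0
    refine ⟨hY, fun u hu' => ?_⟩
    rw [hβ] at h0
    have h1 : ∀ i, F Y *ᵥ e i = 0 := by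
      intro i
      by_contra hne
      have h2 := (Finset.sum_eq_zero_iff_of_nonneg
        (fun i _ => hnn _ (hFU Y hY _ (he i)))).1 h0 i (Finset.mem_univ i)
      exact (hC.pos _ (hFU Y hY _ (he i)) hne).ne' h2
    rw [hu u hu', Matrix.mulVec_sum]
    exact Finset.sum_eq_zero fun i _ => by rw [Matrix.mulVec_smul, h1, smul_zero]
  · intro X hX Y hY Z hZ
    have hq := qM_full h hW hH
    obtain ⟨Z₀, hZ₀, d, hd, rfl, hZc⟩ := hq.dec hX
    have hZ₁ : ∀ Y ∈ A.NA, Y * Z₀ = Z₀ * Y := hq.comm Z₀ fun Y hY => (hZc Y hY).symm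
    have hZ₂ : ∀ Y ∈ spE A (A.NA : Set (Module.End ℚ A.H1)), A.ext Z₀ * Y = Y * A.ext Z₀ := by
      intro Y hY
      induction hY using Submodule.span_induction with
      | mem Y hY =>
        obtain ⟨X, hX, rfl⟩ := hY
        rw [← ext_mul, ← ext_mul, hZ₁ X hX]
      | zero => rw [mul_zero, zero_mul]
      | add a b _ _ ha hb => rw [mul_add, add_mul, ha, hb]
      | smul c a _ ha => rw [mul_smul_comm, smul_mul_assoc, ha]
    obtain ⟨hdN, M, hM, hMH⟩ := der_mem h hW hd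
    have hdd : d ∈ der A.NA := by
      have hdd : der (qM B Wt H) ≤ der A.NA := by
        unfold der
        exact Submodule.span_mono fun _ ⟨X, hX, Y, hY, e⟩ => ⟨X, hq.le hX, Y, hq.le hY, e⟩
      exact hdd hd
    have hd' := mem_spE (S := (A.NA : Set (Module.End ℚ A.H1))) hdN
    obtain ⟨κ, hκ⟩ := hC.inv d hdd M hM hMH
    have e1 : ∀ Y ∈ spE A (A.NA : Set (Module.End ℚ A.H1)),
        F (A.ext (Z₀ + d) * Y - Y * A.ext (Z₀ + d)) = F Y * rq M - rq M * F Y := by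
      intro Y hY
      have e2 : A.ext (Z₀ + d) * Y - Y * A.ext (Z₀ + d) = A.ext d * Y - Y * A.ext d := by
        rw [ext_add, add_mul, mul_add, hZ₂ Y hY]
        abel
      rw [e2, F_br h hF hd' hY, F_ext h hF hdN hM]
    rw [hβ, hβ, e1 Y hY, e1 Z hZ, ← Finset.sum_add_distrib]
    exact onb_inv he hij hu hC.sym hκ (hC.st d hdN M hM) (hFU Y hY) (hFU Z hZ)

end

/-! ### Commutative Mumford-Tate groups -/

/-- If the complex structure commutes with the Lie algebra then the Mumford-Tate group is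
commutative. -/
theorem comm_of_N (h : Mot w B P) (hW : WRel w B Wt) (hN : RelR B AbVar.JJ N)
    (hk : ∀ X ∈ A.NA, ∀ M, Rel B X M → rq M * N = N * rq M) :
    ∃ G₁ : Subgroup (GL (Fin n) ℂ), (∃ I : Set (MvPolynomial (Fin n × Fin n) ℚ),
      ∀ x : GL (Fin n) ℂ, x ∈ G₁ ↔ ∀ p ∈ I, MvPolynomial.aeval
        (fun b : Fin n × Fin n => (x : Matrix (Fin n) (Fin n) ℂ) b.1 b.2) p = 0) ∧
      (∀ z : ℂ, z ≠ 0 → ∃ x ∈ G₁, HRel w B z (x : Matrix (Fin n) (Fin n) ℂ)) ∧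
      ∀ x ∈ G₁, ∀ y ∈ G₁, x * y = y * x := by
  obtain ⟨N', hN'', hN'⟩ := exists_J h
  have e0 : N = N' := hN.uniq h.li hN''
  subst e0
  let S := opS B Wt
  let S' : Set (Matrix (Fin n) (Fin n) ℚ) := {E | ∀ M ∈ S, E * M = M * E}
  obtain ⟨I, hI⟩ := cent_alg S
  obtain ⟨I', hI'⟩ := cent_alg S'
  have hrc : ∀ M : Matrix (Fin n) (Fin n) ℚ, cxm (rq M) = cq M := by
    intro M
    ext i j
    unfold cxm rq cq
    rw [Matrix.map_apply, Matrix.map_apply, Matrix.map_apply]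
    push_cast
    rfl
  have hcm : ∀ M N : Matrix (Fin n) (Fin n) ℝ, cxm (M * N) = cxm M * cxm N := by
    intro M N
    unfold cxm
    exact Matrix.map_mul (f := Complex.ofRealHom)
  have hcomm : ∀ M ∈ S, cxm N * cq M = cq M * cxm N ∧ Wt * M = M * Wt := by
    rintro M (rfl | ⟨X, hX, hM⟩)
    · refine ⟨?_, rfl⟩
      obtain ⟨t, X, M', h1, h2⟩ := hN'
      rw [← hrc, ← hcm, ← hcm]
      congr 1
      rw [h2, Finset.sum_mul, Finset.mul_sum]
      refine Finset.sum_congr rfl fun k _ => ?_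
      change (_ • rq (M' k)) * rq M = rq M * (_ • rq (M' k))
      rw [smul_mul_assoc, mul_smul_comm, ← rq_mul, ← rq_mul, WRel.comm h.li (h1 k).2 hW]
    · refine ⟨?_, (WRel.comm h.li hM hW).symm⟩
      rw [← hrc, ← hcm, ← hcm, hk X hX M hM]
  refine ⟨cent S ⊓ cent S', ⟨I ∪ I', fun x => ?_⟩, fun z hz => ?_, ?_⟩
  · rw [Subgroup.mem_inf, hI, hI']
    constructor
    · rintro ⟨h1, h2⟩ p (hp | hp)
      · exact h1 p hp
      · exact h2 p hp
    · intro h1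
      exact ⟨fun p hp => h1 p (Or.inl hp), fun p hp => h1 p (Or.inr hp)⟩
  · refine ⟨eG (KK Wt N z), ⟨fun M hM => ?_, fun E hE => ?_⟩, hrel_exp hW hN hz⟩
    · refine comm_exp ?_
      obtain ⟨h1, h2⟩ := hcomm M hM
      have h3 : cq Wt * cq M = cq M * cq Wt := by rw [← cq_mul, ← cq_mul, h2]
      change ((Real.log ‖z‖ : ℂ) • cq Wt + (Complex.arg z : ℂ) • cxm N) * cq M =
        cq M * ((Real.log ‖z‖ : ℂ) • cq Wt + (Complex.arg z : ℂ) • cxm N)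
      rw [add_mul, mul_add, smul_mul_assoc, smul_mul_assoc, mul_smul_comm, mul_smul_comm, h1, h3]
    · refine comm_exp ?_
      have h1 := KK_mem (S := S) (Or.inl rfl)
        (fun X hX M hM => Or.inr ⟨X, hX, hM⟩) hN' z
      refine Submodule.span_induction (p := fun K _ => K * cq E = cq E * K) ?_ ?_ ?_ ?_ h1
      · rintro _ ⟨M', hM', rfl⟩
        rw [← cq_mul, ← cq_mul, hE M' hM']
      · rw [zero_mul, mul_zero]
      · intro a b _ _ ha hb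
        rw [add_mul, mul_add, ha, hb]
      · intro c a _ ha
        rw [smul_mul_assoc, mul_smul_comm, ha]
  · rintro x ⟨hx, -⟩ y ⟨-, hy⟩
    apply Units.ext
    rw [Units.val_mul, Units.val_mul]
    have h1 := mem_span_cent (S := S) (x := (x : Matrix (Fin n) (Fin n) ℂ)) hx
    refine Submodule.span_induction
      (p := fun (K : Matrix (Fin n) (Fin n) ℂ) _ => K * (y : Matrix (Fin n) (Fin n) ℂ) = y * K)
      ?_ ?_ ?_ ?_ h1
    · rintro _ ⟨E, hE, rfl⟩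
      exact (hy E hE).symm
    · rw [zero_mul, mul_zero]
    · intro a b _ _ ha hb
      rw [add_mul, mul_add, ha, hb]
    · intro c a _ ha
      rw [smul_mul_assoc, mul_smul_comm, ha]

end Pool.Agent.N208.NC
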